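import Pool.Agent.Helper42.SM14
import Pool.Agent.Helper42.AB5

/-!
# Every nonempty set of positive integers is the set of spectral multiplicities of an ergodic
automorphism of a standard probability space

All definitions used in the statement of `result` are given in this file, except the instance
`MeasurableSpace Circle := borel Circle` (file `Pool.Agent.Helper65.CircleMeas`), which Mathlib lacks.
-/

open MeasureTheory
open scoped ENNReal

namespace Pool.Agent.Results.MP_b9bb23_an.SpectralMultiplicities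

/-- `L²(μ)`, complex valued. -/
abbrev L2 {X : Type} [MeasurableSpace X] (μ : Measure X) : Type := Lp ℂ 2 μ

section L20

variable {X : Type} [MeasurableSpace X] (μ : Measure X)

/-- An element of `L²(μ)` as a function (a representative of its class). -/
noncomputable def fn (f : L2 μ) : X → ℂ := f

/-- Integral zero. -/
def ZeroMean (f : L2 μ) : Prop := ∫ x, fn μ f x ∂μ = 0

theorem zeroMean_zero : ZeroMean μ 0 := by
  show ∫ x, (0 : Lp ℂ 2 μ) x ∂μ = 0
  rw [integral_congr_ae (Lp.coeFn_zero ℂ 2 μ)]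
  simp

theorem zeroMean_smul (c : ℂ) {f : L2 μ} (hf : ZeroMean μ f) : ZeroMean μ (c • f) := by
  show ∫ x, (c • f : Lp ℂ 2 μ) x ∂μ = 0
  rw [integral_congr_ae (Lp.coeFn_smul c f)]
  show ∫ x, c • (f : Lp ℂ 2 μ) x ∂μ = 0
  rw [integral_smul, show ∫ x, (f : Lp ℂ 2 μ) x ∂μ = 0 from hf, smul_zero]

variable [IsProbabilityMeasure μ]

theorem zeroMean_add {f g : L2 μ} (hf : ZeroMean μ f) (hg : ZeroMean μ g) :
    ZeroMean μ (f + g) := by
  show ∫ x, (f + g : Lp ℂ 2 μ) x ∂μ = 0
  have hf1 : Integrable f μ := (Lp.memLp f).integrable (by norm_num)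
  have hg1 : Integrable g μ := (Lp.memLp g).integrable (by norm_num)
  rw [integral_congr_ae (Lp.coeFn_add f g)]
  show ∫ x, ((f : Lp ℂ 2 μ) x + (g : Lp ℂ 2 μ) x) ∂μ = 0
  rw [integral_add hf1 hg1, show ∫ x, (f : Lp ℂ 2 μ) x ∂μ = 0 from hf,
    show ∫ x, (g : Lp ℂ 2 μ) x ∂μ = 0 from hg, add_zero]

/-- `L²₀(μ)`: the square integrable functions with integral zero. -/
noncomputable def L20 : Submodule ℂ (L2 μ) where
  carrier := {f | ZeroMean μ f}
  zero_mem' := zeroMean_zero μ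
  add_mem' := zeroMean_add μ
  smul_mem' := fun c _ => zeroMean_smul μ c

end L20

/-- `L²({z | l < m z}, σ)`. -/
abbrev Layer (σ : Measure Circle) (m : Circle → ℕ∞) (l : ℕ) : Type :=
  L2 (σ.restrict {z | (l : ℕ∞) < m z})

/-- `⨁_{l = 0, 1, 2, …} L²({z | l < m z}, σ)` (Hilbert sum): the direct integral, with respect to
`σ`, of Hilbert spaces of dimension `m z`. -/
abbrev Model (σ : Measure Circle) (m : Circle → ℕ∞) : Type := lp (Layer σ m) 2

/-- The component number `l` of an element of `Model σ m`, as a function. -/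
noncomputable def component (σ : Measure Circle) (m : Circle → ℕ∞) (F : Model σ m) (l : ℕ) :
    Circle → ℂ := fn _ (F l)

/-- `G = z · F` in `Model σ m`. -/
def IsMulZ (σ : Measure Circle) (m : Circle → ℕ∞) (F G : Model σ m) : Prop :=
  ∀ l : ℕ, component σ m G l =ᵐ[σ.restrict {z | (l : ℕ∞) < m z}]
    fun z => (z : ℂ) * component σ m F l z

/-- `g = f ∘ T` in `L²₀(μ)`. -/
def IsKoopman {X : Type} [MeasurableSpace X] (μ : Measure X) [IsProbabilityMeasure μ]
    (T : X → X) (f g : L20 μ) : Prop :=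
  fn μ g.1 =ᵐ[μ] fn μ f.1 ∘ T

/-- Some unitary `Φ : E → F` turns the operator with graph `U` into the operator with graph `W`. -/
def UnitarilyEquivalent {E F : Type} [NormedAddCommGroup E] [InnerProductSpace ℂ E]
    [NormedAddCommGroup F] [InnerProductSpace ℂ F] (U : E → E → Prop) (W : F → F → Prop) : Prop :=
  ∃ Φ : E ≃ₗᵢ[ℂ] F, ∀ f g : E, U f g → W (Φ f) (Φ g)

/-- `σ` is a (finite Borel) measure of maximal spectral type on the unit circle and
`m : Circle → {1, 2, …, ∞}` is the multiplicity function of the Koopman operator `U f = f ∘ T`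
restricted to `L²₀(μ)`: the operator is unitarily equivalent to multiplication by `z` on `Model σ m`
(spectral theorem in Hahn–Hellinger form). -/
def IsSpectralModel {X : Type} [MeasurableSpace X] (μ : Measure X) [IsProbabilityMeasure μ]
    (T : X → X) (σ : Measure Circle) (m : Circle → ℕ∞) : Prop :=
  IsFiniteMeasure σ ∧ (∀ k : ℕ∞, MeasurableSet {z | m z = k}) ∧ (∀ z, 1 ≤ m z) ∧
    UnitarilyEquivalent (IsKoopman μ T) (IsMulZ σ m)

/-- The set `M(T)` of spectral multiplicities of `T` (the essential values of the multiplicity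
function on `L²₀(μ)`) is `M`. -/
def MultiplicitySetIs {X : Type} [MeasurableSpace X] (μ : Measure X) [IsProbabilityMeasure μ]
    (T : X → X) (M : Set ℕ∞) : Prop :=
  ∃ (σ : Measure Circle) (m : Circle → ℕ∞), IsSpectralModel μ T σ m ∧
    ∀ k : ℕ∞, k ∈ M ↔ σ {z | m z = k} ≠ 0

/-- `M` is the set of spectral multiplicities of an ergodic automorphism of a standard nonatomic
probability space. -/
def Realized (M : Set ℕ∞) : Prop :=
  ∃ (X : Type) (_ : MeasurableSpace X) (_ : StandardBorelSpace X) (μ : Measure X)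
    (_ : IsProbabilityMeasure μ) (T : X ≃ᵐ X),
    (∀ x, μ {x} = 0) ∧ Ergodic T μ ∧ MultiplicitySetIs μ T M

open Pool.Agent.Helper42 in
theorem L20_eq {P : SM.Par} {Q : SM.Par2 P} (hr : SM.Rec Q) :
    L20 (SM.mu P.D) = (SM.Par2.sys hr).H0 := by
  ext f
  rw [AB.Sys.mem_H0]
  show (∫ x, f x ∂(SM.mu P.D) = 0) ↔ inner ℂ SM.oneL f = 0
  rw [SM.inner_oneL]

open Pool.Agent.Helper42 in
theorem exists_model {P : SM.Par} {Q : SM.Par2 P} (hr : SM.Rec Q) :
    ∃ (σ : Measure Circle) (ix : Circle → ℕ), IsFiniteMeasure σ ∧ Measurable ix ∧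
    (∀ a, σ {z | ix z = a} ≠ 0) ∧
    ∃ Φ : L20 (SM.mu P.D) ≃ₗᵢ[ℂ] lp (fun l : ℕ => Lp ℂ 2 (σ.restrict {z | l < P.k (ix z)})) 2,
      ∀ f g : L20 (SM.mu P.D), (g : P.X → ℂ) =ᵐ[SM.mu P.D]
        (fun x => (f : P.X → ℂ) (SM.Te (SM.Par2.tt P) Q.kap_mem x)) →
        ∀ l : ℕ, (Φ g l : Circle → ℂ) =ᵐ[σ.restrict {z | l < P.k (ix z)}]
          fun z => (z : ℂ) * (Φ f l : Circle → ℂ) z := by
  obtain ⟨σ, ix, h1, h2, h3, Φ, h4⟩ := (SM.Par2.sys hr).model
  refine ⟨σ, ix, h1, h2, h3, (LinearIsometryEquiv.ofEq _ _ (L20_eq hr)).trans Φ, ?_⟩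
  intro f g hfg l
  have h5 : (LinearIsometryEquiv.ofEq _ _ (L20_eq hr)) g =
      (SM.Par2.sys hr).U0 ((LinearIsometryEquiv.ofEq _ _ (L20_eq hr)) f) := by
    apply Subtype.ext
    show (g : Lp ℂ 2 (SM.mu P.D)) = SM.UU Q.kap_mem (SM.Par2.tt P) Q.sum_bad (f : Lp ℂ 2 (SM.mu P.D))
    rw [SM.UU_eq]
    apply Lp.ext
    filter_upwards [hfg, SM.koop_coe (SM.Tf Q.kap (SM.Par2.tt P))
      (SM.mp_Tf (SM.Par2.tt P) Q.kap_mem Q.sum_bad) (f : Lp ℂ 2 (SM.mu P.D))] with x a1 a2
    rw [a1, a2]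
    rfl
  have h6 := h4 ((LinearIsometryEquiv.ofEq _ _ (L20_eq hr)) f) l
  rw [← h5] at h6
  exact h6

open Pool.Agent.Helper42 in
theorem realized_of_finite (M : Set ℕ∞) (hM : M.Nonempty) (h0 : 0 ∉ M) (htop : ⊤ ∉ M) :
    Realized M := by
  obtain ⟨P, Q, hr, hk⟩ := SM.exists_params {n : ℕ | (n : ℕ∞) ∈ M} (by
    obtain ⟨k, hk⟩ := hM
    obtain ⟨n, rfl⟩ := ENat.ne_top_iff_exists.mp (fun h => htop (h ▸ hk))
    exact ⟨n, hk⟩) (by simpa using h0)
  obtain ⟨σ, ix, h1, h2, h3, Φ, h4⟩ := exists_model hr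
  refine ⟨P.X, inferInstance, inferInstance, SM.mu P.D, inferInstance, SM.Te (SM.Par2.tt P) Q.kap_mem,
    (SM.noAtoms P).measure_singleton, SM.Par2.ergodic hr, σ, fun z => (P.k (ix z) : ℕ∞), ?_, ?_⟩
  · refine ⟨h1, ?_, ?_, ?_⟩
    · intro k
      have : {z | (P.k (ix z) : ℕ∞) = k} = ix ⁻¹' {a | (P.k a : ℕ∞) = k} := rfl
      rw [this]
      exact h2 (Set.to_countable _).measurableSet
    · intro z
      have h5 : 1 ≤ P.k (ix z) := P.hk (ix z)
      show (1 : ℕ∞) ≤ (P.k (ix z) : ℕ∞)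
      exact_mod_cast h5
    · have hset : (fun l : ℕ => {z : Circle | (l : ℕ∞) < (P.k (ix z) : ℕ∞)}) =
          fun l : ℕ => {z : Circle | l < P.k (ix z)} := by
        funext l
        ext z
        show (l : ℕ∞) < (P.k (ix z) : ℕ∞) ↔ l < P.k (ix z)
        exact Nat.cast_lt
      have key : ∀ s : ℕ → Set Circle, s = (fun l : ℕ => {z : Circle | l < P.k (ix z)}) →
          ∃ Φ : L20 (SM.mu P.D) ≃ₗᵢ[ℂ] lp (fun l : ℕ => Lp ℂ 2 (σ.restrict (s l))) 2,
            ∀ f g : L20 (SM.mu P.D), (g : P.X → ℂ) =ᵐ[SM.mu P.D]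
              (fun x => (f : P.X → ℂ) (SM.Te (SM.Par2.tt P) Q.kap_mem x)) →
              ∀ l : ℕ, (Φ g l : Circle → ℂ) =ᵐ[σ.restrict (s l)]
                fun z => (z : ℂ) * (Φ f l : Circle → ℂ) z := by
        rintro _ rfl
        exact ⟨Φ, h4⟩
      exact key _ hset
  · intro k
    have hk' : ∀ n : ℕ, (n : ℕ∞) ∈ M ↔ ∃ a, P.k a = n := by
      intro n
      have : n ∈ Set.range P.k ↔ (n : ℕ∞) ∈ M := by rw [hk]; rfl
      exact this.symm
    constructor
    · intro hkM
      obtain ⟨n, rfl⟩ := ENat.ne_top_iff_exists.mp (fun h => htop (h ▸ hkM))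
      obtain ⟨a, ha⟩ := (hk' n).mp hkM
      intro h5
      apply h3 a
      refine measure_mono_null ?_ h5
      rintro z (rfl : ix z = a)
      show (P.k (ix z) : ℕ∞) = n
      rw [ha]
    · intro hne
      have : ({z : Circle | (P.k (ix z) : ℕ∞) = k}).Nonempty := by
        rw [Set.nonempty_iff_ne_empty]
        intro h5
        apply hne
        show σ {z : Circle | (P.k (ix z) : ℕ∞) = k} = 0
        rw [h5, measure_empty]
      obtain ⟨z, rfl⟩ := this
      exact (hk' _).mpr ⟨_, rfl⟩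

/-- **Every nonempty set `M` of positive integers is the set of spectral multiplicities of an
ergodic automorphism** of a standard nonatomic probability space. -/
theorem result (M : Set ℕ∞) (hM : M.Nonempty) (h0 : 0 ∉ M) (htop : ⊤ ∉ M) : Realized M :=
  realized_of_finite M hM h0 htop

/-- The special case asked for in the problem: `{m, m + 1}`. -/
theorem consecutive (m : ℕ) (hm : 2 < m) : Realized {(m : ℕ∞), (m : ℕ∞) + 1} := by
  refine result _ ⟨_, Or.inl rfl⟩ ?_ ?_
  · rintro (h | h)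
    · have : (0 : ℕ∞) = ((m : ℕ) : ℕ∞) := h
      have h2 : 0 = m := by exact_mod_cast this
      omega
    · have : (0 : ℕ∞) = ((m : ℕ) : ℕ∞) + 1 := h
      have h2 : 0 = m + 1 := by exact_mod_cast this
      omega
  · rintro (h | h)
    · exact ENat.natCast_ne_top m (Eq.symm h)
    · have : (⊤ : ℕ∞) = ((m + 1 : ℕ) : ℕ∞) := h
      exact ENat.natCast_ne_top (m + 1) this.symm

end Pool.Agent.Results.MP_b9bb23_an.SpectralMultiplicities
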